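import Pool.Agent.Run7.h688.Poly

/-!
# MP_663051: recognition of beta-perfect graphs

Deciding whether a finite graph, given by its adjacency matrix, is beta-perfect is coNP-complete.
Hence there is a polynomial-time algorithm for it if and only if P = NP.
-/

namespace Pool.Agent.Results.MP_663051_lc.Recognition

open Pool.Agent.Cx Run7.h688

/-- The recognition problem for beta-perfect graphs, as a language of bit strings: the set of the
codes of the adjacency matrices of beta-perfect graphs. -/
def Rec : Language := Lang fun M : List (List Bool) => IsGraph M ∧ BetaPerfect (graphOf M)

/-- Recognition of beta-perfect graphs is coNP-complete; it can be done in polynomial time if and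
only if P = NP. -/
theorem result : CoNPComplete Rec ∧ (InP Rec ↔ ∀ L : Language, InP L ↔ InNP L) :=
  ⟨coNPComplete_beta, inP_beta_iff⟩

end Pool.Agent.Results.MP_663051_lc.Recognition
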